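import Pool.Agent.Q162.Epi.Desub

/-!
# Letter-to-letter projections of episturmian words are rich

Let `u` be an episturmian word over an arbitrary alphabet and let `ζ` be a map of the letters to
another alphabet.  Then all factors of `ζ(u)` are rich (in palindromes).  For a binary projection
this is the positive answer to the question of MP_8d80dd_co, for all finite alphabets.

Proof.  By desubstitution every factor of `u` is a factor of `μ(x₁) ⋯ μ(x_r)`,
`μ = ψ_{a₁} ∘ ⋯ ∘ ψ_{a_n}`, `n` as large as one likes.  Put `F(x) = ζ(μ(x))`, let `p` be the image of
the `n`-th palindromic prefix and `Q(x) = F(x) p`; short factors of `ζ(u)` are factors of the `Q(x)`.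
The words `Q(x)` are palindromes, and the following is shown by induction on `n`, simultaneously:
* every prefix of `Q(x)` has a unioccurrent palindromic suffix;
* a palindrome which occurs in `Q(x)` and in `Q(y)` occurs in their longest common prefix;
* if `p` occurs in `Q(x)` other than as prefix and as suffix then the least period of `p` is a period
  of `Q(x)`.
-/

set_option autoImplicit false

namespace Pool.Agent.Results.MP_8d80dd_co.EpisturmianProjections

/-- `w` is a factor of the infinite word `u`: `w = u_i u_(i+1) ⋯ u_(i+n-1)` for some `i`, `n` -/
def IsFactor {α : Type} (u : ℕ → α) (w : List α) : Prop :=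
  ∃ i n : ℕ, w = (List.range n).map fun k => u (i + k)

/-- `w` is left special: `aw` and `bw` are factors for two different letters `a`, `b` -/
def LeftSpecial {α : Type} (u : ℕ → α) (w : List α) : Prop :=
  ∃ a b : α, a ≠ b ∧ IsFactor u (a :: w) ∧ IsFactor u (b :: w)

/-- `u` is episturmian: the set of the factors is closed under reversal, and for every `n` there is at
most one left special factor of length `n` -/
def Episturmian {α : Type} (u : ℕ → α) : Prop :=
  (∀ w, IsFactor u w → IsFactor u w.reverse) ∧
  ∀ n : ℕ, ∀ v w : List α, v.length = n → w.length = n →
    LeftSpecial u v → LeftSpecial u w → v = w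

/-- the finite word `w` is rich: it has exactly `|w| + 1` different palindromic factors -/
def Rich {β : Type} (w : List β) : Prop :=
  {v : List β | v <:+: w ∧ v.reverse = v}.ncard = w.length + 1

/-- the infinite word `u` is rich: all its factors are rich -/
def RichInfinite {β : Type} (u : ℕ → β) : Prop := ∀ w, IsFactor u w → Rich w

open Classical in
/-- **Theorem.** (1) For every alphabet `α`, every episturmian word `u` over `α` and every map `ζ` of
`α` to an alphabet `β` the word `ζ(u)` is rich. (2) In particular this holds for the binary projection
given by a set `S` of letters (`true` on `S`, `false` on the other letters). -/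
theorem result :
    (∀ (α β : Type) (ζ : α → β) (u : ℕ → α), Episturmian u → RichInfinite fun n => ζ (u n)) ∧
    (∀ (α : Type) (S : Set α) (u : ℕ → α), Episturmian u →
      RichInfinite fun n => if u n ∈ S then true else false) := by
  have key : ∀ (α β : Type) (ζ : α → β) (u : ℕ → α), Episturmian u →
      RichInfinite fun n => ζ (u n) := by
    intro α β ζ u hu w hw
    have h : Pool.Agent.Q162.Epi.Episturmian u :=
      ⟨hu.1, fun v w h1 h2 h3 => hu.2 w.length v w h3 rfl h1 h2⟩
    exact Pool.Agent.Q162.Epi.main ζ h hw
  exact ⟨key, fun α S u hu => key α Bool (fun a => if a ∈ S then true else false) u hu⟩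

end Pool.Agent.Results.MP_8d80dd_co.EpisturmianProjections
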